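import Pool.Agent.H13.EV.Defs
import Pool.Agent.H19.HP.IDL

/-!
# Module IDL of MP_6b5a9a_nt (even degree): from ideals to polynomials, for a given generator

Adaptation of `Pool/Agent/H19/HP/IDL.lean`.
-/

open Polynomial

namespace Pool.Agent.H20.EV.IDL

open Pool.Agent.H62.HE QuadraticAlgebra
open Pool.Agent.H19.HP.IDL (lift pow_le_JJ mul_conj)

universe u

/-- IDL. -/
theorem idl : Pool.Agent.H13.EV.T_IDL.{u} := by
  intro k _ f U w a b N h20 hU0 hN hU hc hh
  obtain ⟨W, hWw, hWf⟩ := lift h20 hU hc N hN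
  obtain ⟨h, hhd⟩ : ∃ h : HR k f, h = ⟨a, b⟩ := ⟨_, rfl⟩
  rw [← hhd] at hh
  have hre : h.re = a := by rw [hhd]
  have him : h.im = b := by rw [hhd]
  have hmem : U ^ N ∣ h.re + h.im * W := by
    have : h ∈ II f U w ^ N := by rw [hh]; exact Ideal.mem_span_singleton_self h
    exact pow_le_JJ hWw hWf N le_rfl this
  have hspan : Ideal.span {algebraMap k[X] (HR k f) (U ^ N)}
      = Ideal.span {algebraMap k[X] (HR k f) (norm h)} := by
    have h1 : (II f U w * Ideal.map (starRingEnd (HR k f)) (II f U w)) ^ N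
        = Ideal.span {h} * Ideal.span {star h} := by
      rw [mul_pow, hh, ← Ideal.map_pow, hh, Ideal.map_span, Set.image_singleton,
        starRingEnd_apply]
    rw [mul_conj h20 hU hc, Ideal.span_singleton_pow, Ideal.span_singleton_mul_span_singleton,
      ← algebraMap_norm_eq_mul_star] at h1
    rw [← h1, map_pow]
    rfl
  have hd1 : U ^ N ∣ norm h := by
    have : algebraMap k[X] (HR k f) (norm h) ∈ Ideal.span {algebraMap k[X] (HR k f) (U ^ N)} := by
      rw [hspan]; exact Ideal.mem_span_singleton_self _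
    rw [Ideal.mem_span_singleton] at this
    exact algebraMap_dvd_iff_dvd.1 this
  have hd2 : norm h ∣ U ^ N := by
    have : algebraMap k[X] (HR k f) (U ^ N) ∈ Ideal.span {algebraMap k[X] (HR k f) (norm h)} := by
      rw [← hspan]; exact Ideal.mem_span_singleton_self _
    rw [Ideal.mem_span_singleton] at this
    exact algebraMap_dvd_iff_dvd.1 this
  obtain ⟨v, hv⟩ := associated_of_dvd_dvd hd1 hd2
  obtain ⟨c, hc0, hcv⟩ := Polynomial.isUnit_iff.1 v.isUnit
  refine ⟨W, c, hc0.ne_zero, hWw, hWf, by rw [← hre, ← him]; exact hmem, ?_⟩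
  have : norm h = a ^ 2 - f * b ^ 2 := by rw [norm_def, hre, him]; ring
  rw [← this, ← hv, ← hcv, mul_comm]

end Pool.Agent.H20.EV.IDL
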