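import Pool.Agent.H13.EV.Defs

/-!
# Module SQS of MP_6b5a9a_nt (even degree): square roots of power series
-/

namespace Pool.Agent.H20.EV.SQS

universe u

/-- the coefficients of the square root -/
noncomputable def sq {k : Type u} [Field k] (F : PowerSeries k) (r : k) : ℕ → k
  | 0 => r
  | n + 1 => (PowerSeries.coeff (n + 1) F -
      ∑ i : Fin n, sq F r (i.1 + 1) * sq F r (n - i.1)) / (2 * r)
termination_by n => n
decreasing_by
  · have := i.2; omega
  · have := i.2; omega

/-- SQS. -/
theorem sqs : Pool.Agent.H13.EV.T_SQS.{u} := by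
  intro k _ F r h2 hr hF
  refine ⟨PowerSeries.mk (sq F r), ?_, ?_⟩
  · ext n
    rw [pow_two, PowerSeries.coeff_mul]
    simp only [PowerSeries.coeff_mk]
    rcases n with _ | n
    · have h0 : sq F r 0 = r := by rw [sq]
      rw [PowerSeries.coeff_zero_eq_constantCoeff_apply, ← hF]
      simp [h0, pow_two]
    · rw [Finset.Nat.sum_antidiagonal_eq_sum_range_succ_mk, Finset.sum_range_succ,
        Finset.sum_range_succ']
      have h0 : sq F r 0 = r := by rw [sq]
      have h1 : sq F r (n + 1) * (2 * r) = PowerSeries.coeff (n + 1) F -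
          ∑ i : Fin n, sq F r (i.1 + 1) * sq F r (n - i.1) := by
        conv_lhs => rw [sq]
        field_simp
      have h3 : ∑ i : Fin n, sq F r (i.1 + 1) * sq F r (n - i.1) =
          ∑ i ∈ Finset.range n, sq F r (i + 1) * sq F r (n + 1 - (i + 1)) := by
        rw [Finset.sum_range]
        refine Finset.sum_congr rfl fun i _ => ?_
        rw [Nat.add_sub_add_right]
      rw [h3] at h1
      simp only [Nat.sub_zero, Nat.sub_self, h0]
      linear_combination h1
  · rw [PowerSeries.constantCoeff_mk, sq]

end Pool.Agent.H20.EV.SQS
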