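import Pool.Agent.H64.EV.Targets

/-!
# evn_modules, row TN1: the component of the symmetrization of the identity is a class, and the
traces of the powers of its operator are integers
-/

set_option autoImplicit false
set_option linter.unusedSectionVars false

open Matrix Pool.Agent.H2.NL Pool.Agent.H64.CC Pool.Agent.H64.EV

namespace Pool.Agent.H20.EV

section

variable {K : Type} [Field K] {I : Type} [Fintype I] [DecidableEq I] (F : OForm K I)

private theorem zip_eq : ∀ (w u : List I), w.length = u.length →
    (List.zipWith (fun a b => F.η a b) w u).prod =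
      if w = u.map F.st then (u.map (fun b => F.c (F.st b))).prod else 0 := by
  intro w
  induction w with
  | nil =>
    intro u hu
    have : u = [] := List.length_eq_zero_iff.1 hu.symm
    subst this
    simp
  | cons a w ih =>
    intro u hu
    cases u with
    | nil => simp at hu
    | cons b u =>
      rw [List.zipWith_cons_cons, List.prod_cons, ih u (by simpa using hu), List.map_cons,
        List.map_cons, List.prod_cons]
      have h1 : F.η a b = if b = F.st a then F.c a else 0 := rfl
      rw [h1]
      by_cases h : b = F.st a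
      · have h2 : a = F.st b := by rw [h, F.st_st]
        rw [if_pos h]
        by_cases h3 : w = u.map F.st
        · rw [if_pos h3, if_pos (by rw [← h2, ← h3]), ← h2]
        · rw [if_neg h3, if_neg (fun h4 => h3 (List.cons.inj h4).2), mul_zero]
      · rw [if_neg h, zero_mul, if_neg]
        intro h4
        exact h (by rw [(List.cons.inj h4).1, F.st_st])

private theorem opw_eq (l : ℕ) (y : List I → K) (u u' : List I) (hu : u'.length = l) :
    opw F.η l y u u' = y (u ++ (u'.map F.st).reverse) * (u'.map (fun b => F.c (F.st b))).prod := by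
  obtain ⟨v0, hv0⟩ : ∃ v0 : List.Vector I l, v0.1 = (u'.map F.st).reverse :=
    ⟨⟨(u'.map F.st).reverse, by simp [hu]⟩, rfl⟩
  refine (Finset.sum_eq_single v0 ?_ ?_).trans ?_
  rotate_left 2
  · rw [hv0, zip_eq F _ _ (by simp), List.reverse_reverse, if_pos rfl]
  · intro v _ hv
    rw [zip_eq F _ _ (by rw [List.length_reverse, v.2, hu]), if_neg, mul_zero]
    intro h
    apply hv
    apply Subtype.ext
    change v.1 = v0.1
    rw [hv0, ← h, List.reverse_reverse]
  · intro h
    exact absurd (Finset.mem_univ _) h

private theorem zip_rep {I : Type} (s : Bool) : ∀ u : List I,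
    u.zip (List.replicate u.length s) = u.map fun a => (a, s)
  | [] => rfl
  | a :: u => by
    rw [List.length_cons, List.replicate_succ, List.zip_cons_cons, zip_rep s u, List.map_cons]

private theorem lw_append (w w' : List (I × Bool)) : ∀ i : ℕ,
    F.lw i (w ++ w') = F.lw i w * F.lw (i + w.length) w' := by
  induction w with
  | nil => intro i; exact (one_mul _).symm
  | cons a w ih =>
    intro i
    show F.lam i a * F.lw (i + 1) (w ++ w') = F.lam i a * F.lw (i + 1) w * _
    rw [ih, mul_assoc, List.length_cons]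
    have : i + 1 + w.length = i + (w.length + 1) := by omega
    rw [this]

private theorem sg_inv (p : Bool) (i : ℕ) : ∃ z : ℤ, (sg K p ^ i)⁻¹ = (z : K) := by
  cases p
  · exact ⟨1, by rw [sg_false]; simp⟩
  · refine ⟨(-1) ^ i, ?_⟩
    rw [sg_true, ← inv_pow, inv_neg, inv_one]
    push_cast
    rfl

private theorem lw_true (u : List I) : ∀ i : ℕ, ∃ z : ℤ,
    (F.lw i (u.map fun a => (a, true)))⁻¹ = (z : K) := by
  induction u with
  | nil => exact fun i => ⟨1, by simp [OForm.lw]⟩
  | cons a u ih =>
    intro i
    obtain ⟨z, hz⟩ := ih (i + 1)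
    obtain ⟨z', hz'⟩ := sg_inv (K := K) (F.o a) i
    refine ⟨z' * z, ?_⟩
    have h1 : F.lam i (a, true) = sg K (F.o a) ^ i := mul_one _
    have h2 : F.lw i ((a :: u).map fun a => (a, true)) =
        F.lam i (a, true) * F.lw (i + 1) (u.map fun a => (a, true)) := rfl
    rw [h2, mul_inv, hz, h1, hz']
    push_cast
    rfl

private theorem lw_false (u : List I) : ∀ i : ℕ, ∃ z : ℤ,
    (F.lw i (u.map fun a => (a, false)))⁻¹ = (z : K) * ((u.map fun b => F.c (F.st b)).prod)⁻¹ := by
  induction u with
  | nil => exact fun i => ⟨1, by simp [OForm.lw]⟩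
  | cons a u ih =>
    intro i
    obtain ⟨z, hz⟩ := ih (i + 1)
    obtain ⟨z', hz'⟩ := sg_inv (K := K) (F.o a) i
    refine ⟨z' * z, ?_⟩
    have h1 : F.lam i (a, false) = sg K (F.o a) ^ i * F.c (F.st a) := rfl
    have h2 : F.lw i ((a :: u).map fun a => (a, false)) =
        F.lam i (a, false) * F.lw (i + 1) (u.map fun a => (a, false)) := rfl
    rw [h2, mul_inv, hz, h1, mul_inv, hz', List.map_cons, List.prod_cons, mul_inv]
    push_cast
    ring

private theorem pow_conj {J : Type} [Fintype J] [DecidableEq J] (M : Matrix J J K)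
    (B : Matrix J J ℤ) (D : J → K) (hD : ∀ u, D u ≠ 0)
    (h : ∀ u v, M u v = (D u)⁻¹ * (B u v : K) * D v) (n : ℕ) :
    ∀ u v, (M ^ n) u v = (D u)⁻¹ * (((B ^ n) u v : ℤ) : K) * D v := by
  induction n with
  | zero =>
    intro u v
    rw [pow_zero, pow_zero, Matrix.one_apply, Matrix.one_apply]
    by_cases h1 : u = v
    · rw [if_pos h1, if_pos h1, h1, Int.cast_one, mul_one, inv_mul_cancel₀ (hD v)]
    · rw [if_neg h1, if_neg h1, Int.cast_zero, mul_zero, zero_mul]
  | succ n ih =>
    intro u v
    rw [pow_succ, pow_succ, Matrix.mul_apply, Matrix.mul_apply, Int.cast_sum, Finset.mul_sum,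
      Finset.sum_mul]
    refine Finset.sum_congr rfl fun w _ => ?_
    rw [ih, h, Int.cast_mul]
    have h2 : D w * (D w)⁻¹ = 1 := mul_inv_cancel₀ (hD w)
    calc (D u)⁻¹ * (((B ^ n) u w : ℤ) : K) * D w * ((D w)⁻¹ * (B w v : K) * D v)
        = (D u)⁻¹ * (((B ^ n) u w : ℤ) : K) * (D w * (D w)⁻¹) * (B w v : K) * D v := by ring
      _ = _ := by rw [h2]; ring

private theorem prod_ne (u : List I) : (u.map fun b => F.c (F.st b)).prod ≠ 0 := by
  induction u with
  | nil => simp
  | cons a u ih =>
    rw [List.map_cons, List.prod_cons]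
    exact mul_ne_zero (F.c_ne _) ih

/-- the matrix of the operator of a component is conjugate to an integral matrix -/
private theorem op_int (l : ℕ) (Z : List (I × Bool) → K)
    (hZ : ∀ w, ∃ z : ℤ, Z w = (z : K)) (u u' : List.Vector I l) : ∃ z : ℤ,
    op F.η l (F.cmp Z (List.replicate l false ++ List.replicate l true)) u u' =
      ((u.1.map fun b => F.c (F.st b)).prod)⁻¹ * (z : K) *
        (u'.1.map fun b => F.c (F.st b)).prod := by
  have h0 : op F.η l (F.cmp Z (List.replicate l false ++ List.replicate l true)) u u' =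
      opw F.η l (F.cmp Z (List.replicate l false ++ List.replicate l true)) u.1 u'.1 := rfl
  have hu : u.1.length = l := u.2
  have hv : ((u'.1.map F.st).reverse).length = l := by
    rw [List.length_reverse, List.length_map]
    exact u'.2
  rw [h0, opw_eq F l _ u.1 u'.1 u'.2]
  obtain ⟨v, hv'⟩ : ∃ v, v = (u'.1.map F.st).reverse := ⟨_, rfl⟩
  rw [← hv'] at hv ⊢
  have h1 : (u.1 ++ v).zip (List.replicate l false ++ List.replicate l true) =
      (u.1.map fun a => (a, false)) ++ (v.map fun a => (a, true)) := by
    rw [List.zip_append (by rw [hu, List.length_replicate])]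
    congr 1
    · have := zip_rep false u.1
      rwa [hu] at this
    · have := zip_rep true v
      rwa [hv] at this
  have h2 : F.cmp Z (List.replicate l false ++ List.replicate l true) (u.1 ++ v) =
      (F.lw 0 ((u.1.map fun a => (a, false)) ++ (v.map fun a => (a, true))))⁻¹ *
        Z ((u.1.map fun a => (a, false)) ++ (v.map fun a => (a, true))) := by
    rw [← h1]
    rfl
  obtain ⟨z1, hz1⟩ := lw_false F u.1 0
  obtain ⟨z2, hz2⟩ := lw_true F v (0 + (u.1.map fun a => (a, false)).length)
  obtain ⟨z3, hz3⟩ := hZ ((u.1.map fun a => (a, false)) ++ (v.map fun a => (a, true)))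
  refine ⟨z1 * z2 * z3, ?_⟩
  rw [h2, lw_append, mul_inv, hz1, hz2, hz3]
  push_cast
  ring

end

section

variable {K : Type} [Field K] [CharZero K] {I : Type} [Fintype I] [DecidableEq I]

private theorem sws_mem {o : I → Bool} {η ω : Matrix I I K} {A : ℕ → Submodule ℚ (List I → K)}
    (hC : Calc o η ω A) (l : ℕ) (t : List I → K) (ht : t ∈ A l) (js : List ℕ)
    (hjs : ∀ j ∈ js, j + 2 ≤ 2 * l) : sws o js t ∈ A l := by
  induction js with
  | nil => exact ht
  | cons j js ih =>
    show sw o j (sws o js t) ∈ A l
    exact hC.sw l j _ (ih fun i hi => hjs i (List.mem_cons_of_mem _ hi))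
      (hjs j List.mem_cons_self)

private theorem sum_mem {o : I → Bool} {η ω : Matrix I I K} {A : ℕ → Submodule ℚ (List I → K)}
    (hC : Calc o η ω A) (l : ℕ) (t : List I → K) (ht : t ∈ A l) (L : List (List ℕ))
    (hL : ∀ js ∈ L, ∀ j ∈ js, j + 2 ≤ 2 * l) :
    (fun w => (L.map fun js => sws o js t w).sum) ∈ A l := by
  induction L with
  | nil => exact (A l).zero_mem
  | cons js L ih =>
    have e : (fun w => ((js :: L).map fun js => sws o js t w).sum) =
        sws o js t + fun w => (L.map fun js => sws o js t w).sum := by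
      funext w
      simp
    rw [e]
    exact (A l).add_mem (sws_mem hC l t ht js (hL js List.mem_cons_self))
      (ih fun i hi => hL i (List.mem_cons_of_mem _ hi))

end

theorem pf_TN1 (hTCA : T_TCA) (hIDS : T_IDS) (hEIG : T_EIG) : T_TN1 := by
  intro K _ _ I _ _ F A hC l L a ha hL0 hL
  have hC' := hTCA K I F A hC
  have hid : idt F.tl.ω l ∈ F.TA A l :=
    hIDS K (I × Bool) F.tl.o F.tl.η F.tl.ω _ hC' F.tl.ω hC'.om l
  have hZ := sum_mem hC' l _ hid L hL
  refine ⟨hZ _ (by rw [List.length_append, List.length_replicate, List.length_replicate]; omega),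
    fun k => ?_⟩
  have hint : ∀ w : List (I × Bool), ∃ z : ℤ,
      (L.map fun js => sws F.tl.o js (idt F.tl.ω l) w).sum = (z : K) :=
    (hEIG K (I × Bool) F.tl l L (a, false) hL0 hL (by
      show (!F.o a) = false
      rw [ha]
      rfl)).2.2
  have hB := fun u u' => op_int F l _ hint u u'
  choose B hB using hB
  have hpow := pow_conj (op F.η l (F.Zc L l)) (Matrix.of B)
    (fun u => (u.1.map fun b => F.c (F.st b)).prod) (fun u => prod_ne F u.1) hB (k + 1)
  refine ⟨((∑ u, ((Matrix.of B) ^ (k + 1)) u u : ℤ) : ℚ), ?_⟩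
  rw [Matrix.trace, Rat.cast_intCast, Int.cast_sum]
  refine Finset.sum_congr rfl fun u _ => ?_
  rw [Matrix.diag_apply, hpow u u, mul_comm _ ((u.1.map fun b => F.c (F.st b)).prod), ← mul_assoc,
    mul_inv_cancel₀ (prod_ne F u.1), one_mul]

end Pool.Agent.H20.EV
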